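import Mathlib
import Pool.Agent.Helper8.NubDefs
import Pool.Agent.Helper8.NubPerm

set_option autoImplicit false
set_option linter.unusedSectionVars false
open scoped Pointwise

namespace Pool.Agent.Results.MP_1dd661_al.CompactCase

open Pool.Agent.Helper8.NubChar Pool.Agent.Helper8.NubPerm

/-- For a group `Γ` the following are equivalent:
(1) finitely many elements of `Γ` detect finite index, in the sense that every subgroup of `Γ`
containing a positive power of each of them has finite index;
(2) there is one finite list of elements of `Γ` such that, for every action of `Γ` on a compact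
totally disconnected group, the nub of the (flat) group of automorphisms is the product of the
nubs of the elements of the list;
(3) for every action of `Γ` on a compact totally disconnected group, the nub of the group of
automorphisms is a product of finitely many nubs of elements;
(4) the same only for compact totally disconnected groups of exponent at most two. -/
theorem result (Γ : Type) [Group Γ] : List.TFAE [
    ∃ l : List Γ, ∀ K : Subgroup Γ, (∀ γ ∈ l, ∃ n : ℕ, 0 < n ∧ γ ^ n ∈ K) → K.FiniteIndex,
    ∃ l : List Γ, ∀ (G : Type) [Group G] [TopologicalSpace G] [IsTopologicalGroup G]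
      [CompactSpace G] [TotallyDisconnectedSpace G] (φ : Γ →* MulAut G),
      (∀ γ, Continuous ⇑(φ γ)) →
        flatNub φ.range = (l.map (fun γ => nub (φ γ))).prod,
    ∀ (G : Type) [Group G] [TopologicalSpace G] [IsTopologicalGroup G]
      [CompactSpace G] [TotallyDisconnectedSpace G] (φ : Γ →* MulAut G),
      (∀ γ, Continuous ⇑(φ γ)) →
        ∃ l : List Γ, flatNub φ.range = (l.map (fun γ => nub (φ γ))).prod,
    ∀ (G : Type) [Group G] [TopologicalSpace G] [IsTopologicalGroup G]
      [CompactSpace G] [TotallyDisconnectedSpace G] (φ : Γ →* MulAut G),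
      (∀ g : G, g * g = 1) → (∀ γ, Continuous ⇑(φ γ)) →
        ∃ l : List Γ, flatNub φ.range = (l.map (fun γ => nub (φ γ))).prod] := by
  tfae_have 1 → 2
  | ⟨l, hl⟩ => by
    refine ⟨l, ?_⟩
    intro G _ _ _ _ _ φ hφ
    rw [flatNub_eq_core (by rintro _ ⟨γ, rfl⟩; exact hφ γ), core_eq_of_detect φ hφ l hl,
      List.map_map]
    congr 1
    apply List.map_congr_left
    intro γ _
    have h : Continuous ⇑((φ γ)⁻¹) := by
      rw [← map_inv]
      exact hφ _
    exact (nub_eq_core (hφ γ) h).symm
  tfae_have 2 → 3
  | ⟨l, hl⟩ => by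
    intro G _ _ _ _ _ φ hφ
    exact ⟨l, hl G φ hφ⟩
  tfae_have 3 → 4
  | h => by
    intro G _ _ _ _ _ φ _ hφ
    exact h G φ hφ
  tfae_have 4 → 1
  | h => by
    classical
    -- the disjoint union of all infinite transitive actions
    let X : Type := Σ K : {K : Subgroup Γ // ¬ K.FiniteIndex}, Γ ⧸ K.1
    let ρ : Γ →* Equiv.Perm X := MulAction.toPermHom Γ X
    have hρ : ∀ (γ : Γ) (K : {K : Subgroup Γ // ¬ K.FiniteIndex}) (q : Γ ⧸ K.1),
        ρ γ (⟨K, q⟩ : X) = ⟨K, γ • q⟩ := fun γ K q => rfl
    obtain ⟨l, hl⟩ := h (X → Multiplicative (ZMod 2)) (Phi.comp ρ)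
      (by
        intro g
        ext x
        have : ∀ t : Multiplicative (ZMod 2), t * t = 1 := by decide
        exact congrArg _ (this (g x)))
      (by
        intro γ
        exact continuous_pi (fun y => continuous_apply _))
    refine ⟨l, ?_⟩
    by_contra hcon
    push Not at hcon
    obtain ⟨K₀, hK₀, hK₀'⟩ := hcon
    have hcontφ : ∀ γ, Continuous ⇑((Phi.comp ρ) γ) := by
      intro γ
      exact continuous_pi (fun y => continuous_apply _)
    let κ : {K : Subgroup Γ // ¬ K.FiniteIndex} := ⟨K₀, hK₀'⟩
    let x : X := ⟨κ, ((1 : Γ) : Γ ⧸ K₀)⟩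
    rw [flatNub_eq_core (by rintro _ ⟨γ, rfl⟩; exact hcontφ γ)] at hl
    have hinf : (Set.image (fun s : Equiv.Perm X => s x) (Set.range ρ)).Infinite := by
      have hi : Infinite (Γ ⧸ K₀) := by
        by_contra hfin
        rw [not_infinite_iff_finite] at hfin
        exact hK₀' Subgroup.finiteIndex_of_finite_quotient
      apply Set.Infinite.mono (s := Set.range (fun q : Γ ⧸ K₀ => (⟨κ, q⟩ : X)))
      · rintro _ ⟨q, rfl⟩
        obtain ⟨γ, rfl⟩ := QuotientGroup.mk_surjective q
        refine ⟨ρ γ, ⟨γ, rfl⟩, ?_⟩
        show ρ γ x = _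
        rw [hρ]
        congr 1
        rw [MulAction.Quotient.smul_coe, smul_eq_mul, mul_one]
      · apply Set.infinite_range_of_injective
        intro q q' hq
        exact eq_of_heq (Sigma.mk.inj hq).2
    have hmem := single_mem x hinf
    have himg : Phi '' (Set.range ρ) =
        (((Phi.comp ρ).range : Subgroup (MulAut (X → Multiplicative (ZMod 2)))) :
          Set (MulAut (X → Multiplicative (ZMod 2)))) := by
      rw [← Set.range_comp]
      rfl
    rw [himg, ← SetLike.mem_coe, hl] at hmem
    have hsub : (l.map (fun γ => nub ((Phi.comp ρ) γ))).prod ⊆ (K x : Set _) := by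
      apply List.prod_induction (fun S : Set (X → Multiplicative (ZMod 2)) =>
        S ⊆ (K x : Set _))
      · intro S T hS hT
        rintro _ ⟨g, hg, h, hh, rfl⟩
        exact (K x).mul_mem (hS hg) (hT hh)
      · rintro _ rfl
        exact (K x).one_mem
      · intro S hS
        obtain ⟨γ, hγ, rfl⟩ := List.mem_map.mp hS
        have h : Continuous ⇑(((Phi.comp ρ) γ)⁻¹) := by
          rw [← map_inv]
          exact hcontφ _
        rw [nub_eq_core (hcontφ γ) h]
        obtain ⟨n, hn, hnK⟩ := hK₀ γ hγ
        apply nub_subset_K hn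
        rw [← map_pow, hρ]
        congr 1
        rw [MulAction.Quotient.smul_coe, smul_eq_mul, mul_one]
        refine QuotientGroup.eq.mpr ?_
        rw [mul_one]
        exact K₀.inv_mem hnK
    have h1 := hsub hmem
    exact @notMem_K X (fun a b => Classical.propDecidable (a = b)) x h1
  tfae_finish

end Pool.Agent.Results.MP_1dd661_al.CompactCase
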